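import Pool.Agent.N696.LI.Main
import Pool.Agent.N696.LI.P_ALG
import Pool.Agent.N696.LI.P_BDD
import Pool.Agent.N696.LI.P_HESS
import Pool.Agent.N696.LI.P_KER
import Pool.Agent.N696.LI.P_LAT
import Pool.Agent.N696.LI.P_NIL
import Pool.Agent.N696.LI.P_POLY2
import Pool.Agent.N696.LI.P_RAT
import Pool.Agent.N696.LI.P_RC
import Pool.Agent.N696.LI.P_Real
import Pool.Agent.N353.LI.NOOP
import Pool.Agent.N424.LI.Expm
import Pool.Agent.N424.LI.Minv
import Pool.Agent.N424.LI.Poly1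
import Pool.Agent.N692.LI.OPEN
import Pool.Agent.N717.LI.Dc
import Pool.Agent.N78.LI.P_TRF

set_option autoImplicit false

/-!
# Closed Reeb orbits of left-invariant contact forms are dense

Let `𝔤` be a unimodular Lie algebra of a connected linear Lie group `G` (generated by the
exponentials of the elements of `𝔤`), `Γ` a discrete cocompact subgroup of `G`, `v ≠ 0` an abelian
ideal of `𝔤` which meets `Γ` in a lattice, and `α` a left-invariant contact form on `G`, given by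
its value at the identity, with Reeb vector `ξ`.  The Reeb flow of the induced contact form on the
closed manifold `Γ \ G` is `Γ g ↦ Γ g exp (t ξ)`.  In each of four cases the closed orbits of this
flow are dense.
-/

open Topology MvPolynomial Pool.Agent.N696.LI

namespace Pool.Agent.Results.MP_e3ee0c_gt.LeftInvariantForms

theorem result {A : Type} [NormedRing A] [NormedAlgebra ℝ A] [FiniteDimensional ℝ A]
    (𝔤 : Submodule ℝ A) (Γ : Subgroup Aˣ) (v : Submodule ℝ A) (hS : Setting 𝔤 Γ v)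
    (α : A →ₗ[ℝ] ℝ) (ξ : A) (hα : IsContact 𝔤 α ξ)
    (hcase :
      -- the commutator algebra acts trivially on `v` (so for all solvable groups, `v` the centre
      -- of the nilradical)
      (∀ X ∈ 𝔤, ∀ Y ∈ 𝔤, ∀ x ∈ v, br (br X Y) x = 0) ∨
      -- there is a scalar product on `v` such that the `G`-invariant polynomials on the dual of
      -- `v` are invariant under the adjoints of the elements of `G` (this is so if `G` acts
      -- completely reducibly on `v`)
      (∃ B : A →ₗ[ℝ] A →ₗ[ℝ] ℝ, (∀ x ∈ v, ∀ y ∈ v, B x y = B y x) ∧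
        (∀ x ∈ v, x ≠ 0 → 0 < B x x) ∧
        ∀ f : MvPolynomial v ℝ, (∀ g ∈ grp 𝔤, Inv v (cj g) f) → ∀ g ∈ grp 𝔤, ∀ T : A →ₗ[ℝ] A,
          (∀ x ∈ v, T x ∈ v) → (∀ x ∈ v, ∀ y ∈ v, B (cj g x) y = B x (T y)) → Inv v T f) ∨
      -- `𝔤` is generated by elements `X` such that `ad X` has real spectrum on `v`
      (∀ S : Submodule ℝ A, (∀ X ∈ S, ∀ Y ∈ S, br X Y ∈ S) → (∀ X ∈ 𝔤, RealOn v X → X ∈ S) →
        𝔤 ≤ S) ∨
      -- `Γ` is Zariski dense in `G` as far as the action on the dual of `v` is concerned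
      (∀ f : MvPolynomial v ℝ, (∀ γ ∈ Γ, Inv v (cj γ) f) → ∀ g ∈ grp 𝔤, Inv v (cj g) f)) :
    ∀ g ∈ grp 𝔤, ∀ W ∈ 𝓝 g, ∃ g' ∈ grp 𝔤, g' ∈ W ∧ ∃ T : ℝ, 0 < T ∧ ∃ γ ∈ Γ,
      (g' : A) * NormedSpace.exp (T • ξ) = γ * g' := by
  have hopen : S_open := Pool.Agent.N692.LI.s_open
  exact main_of_parts Pool.Agent.N424.LI.expm Lat.lat (Pool.Agent.N353.LI.noop hopen)
    (Poly2.poly2 Pool.Agent.N424.LI.poly1) Ker.ker (Trf.trf Ker.ker Nil.nil) Bdd.bdd Alg.alg_main
    (Pool.Agent.N424.LI.minv hopen) Hess.hess (Pool.Agent.N717.LI.dc hopen) Real'.real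
    (Rc.rc hopen Rat.rat) A 𝔤 Γ v hS α ξ hα hcase

end Pool.Agent.Results.MP_e3ee0c_gt.LeftInvariantForms
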