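import Mathlib
import Pool.Agent.N490.WE.Stmt

/-! Weinstein conjecture: closed Reeb orbits for contact forms with a local torus symmetry of any
rank and arbitrary monodromy in `GL(m, ℤ)`, unless all the quotients `P/K` of the covering `P` on
which the torus acts, by groups `K` of deck transformations commuting with the torus (or with one of
its circles), split off a line. -/

open scoped Topology ContDiff Manifold
open Pool.Agent.H826R2.WStmt Pool.Agent.N490.WE

namespace Pool.Agent.Results.MP_e3ee0c_gt.SplitCoverings

universe u v w x

theorem result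
    {E : Type u} [NormedAddCommGroup E] [NormedSpace ℝ E] [FiniteDimensional ℝ E]
    -- a closed manifold `M` with a contact form `α` and its Reeb field `R`
    {M : Type v} [TopologicalSpace M] [ChartedSpace E M] [IsManifold 𝓘(ℝ, E) ∞ M]
    [T2Space M] [CompactSpace M]
    (α : M → Cov E) (hα : IsContact α) (R : M → E) (hR : IsReeb α R)
    -- a regular covering `q : P → M` with deck group `Γ`, `P` connected
    {P : Type w} [TopologicalSpace P] [ChartedSpace E P] [IsManifold 𝓘(ℝ, E) ∞ P]
    [T2Space P] [SigmaCompactSpace P] [ConnectedSpace P]
    {Γ : Type x} [Group Γ] [MulAction Γ P] (q : P → M) (hq : IsQuotientMap E q Γ)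
    -- a locally free action of an `m`-torus on `P`, `m ≥ 1`, preserving the lifted contact form
    {m : ℕ} (hm : 0 < m) (A : TorusAction (pull (E := E) q α) m)
    -- which is normalised by a subgroup `Γ₀` of finite index of the deck group
    (Γ₀ : Subgroup Γ) (hΓ₀ : Γ₀.FiniteIndex) (hA : Normalises Γ₀ A.act)
    -- a subgroup `K` of `Γ₀` (for instance the trivial group), such that
    (K : Subgroup Γ) (hK : K ≤ Γ₀)
    (hE :
      -- either `K` commutes with a circle of the torus, and `P/K` is not homeomorphic to a product
      -- `Z × ℝ` with a connected space `Z`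
      (∃ k : Fin m → ℤ, k ≠ 0 ∧ CommutesWithCircle K A.act k ∧ ¬ SplitsLine (QuotientBy P K)) ∨
      -- or `K` commutes with the torus, and `P/K` is not homeomorphic to a product `Z × ℝ` with a
      -- connected noncompact space `Z`
      (CommutesWithTorus K A.act ∧ ¬ SplitsLineOpen (QuotientBy P K)) ∨
      -- or `K` commutes with the torus, and the pair `(Γ, K)` has at least two ends
      (CommutesWithTorus K A.act ∧ FaithfulSMul Γ P ∧ TwoEndedPair K)) :
    -- the Reeb flow of `α` on `M` has a periodic orbit
    ∃ (c : ℝ → M) (T : ℝ), IsPeriodicOrbit R c T :=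
  exists_periodic_split α hα R hR q hq hm A Γ₀ hΓ₀ hA K hK hE

end Pool.Agent.Results.MP_e3ee0c_gt.SplitCoverings
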