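import Mathlib
import Pool.Agent.N287.WF.Final

/-! Weinstein conjecture in every dimension for contact forms on closed manifolds whose Reeb field
is tangent to a fibration by closed oriented surfaces. No symmetry is assumed. There are infinitely
many closed orbits of the same period in one fibre. Co-authors (parts of the proof): helpers 596,
603, 170, 284, 426, 490, 488, 700, 674, 75, 79, 427. -/

open scoped Topology ContDiff Manifold
open Pool.Agent.H826R2.WStmt

namespace Pool.Agent.Results.MP_e3ee0c_gt.SurfaceFibrations

universe u v w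

theorem result
    {E : Type u} [NormedAddCommGroup E] [NormedSpace ℝ E] [FiniteDimensional ℝ E]
    -- a closed nonempty manifold `M` with a contact form `α` and its Reeb field `R`
    {M : Type v} [TopologicalSpace M] [ChartedSpace E M] [IsManifold 𝓘(ℝ, E) ∞ M]
    [T2Space M] [CompactSpace M] [Nonempty M]
    (α : M → Cov E) (hα : IsContact α) (R : M → E) (hR : IsReeb α R)
    -- a smooth map to a Euclidean space (for instance a fibration over a submanifold)
    {W : Type w} [NormedAddCommGroup W] [InnerProductSpace ℝ W] [FiniteDimensional ℝ W]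
    (f : M → W) (hf : ContMDiff 𝓘(ℝ, E) 𝓘(ℝ, W) ∞ f)
    -- the kernel of the derivative of `f` has dimension two at each point and it is spanned by the
    -- Reeb field `R` and a second smooth vector field `Z`
    (Z : M → E) (hZ : ContMDiff 𝓘(ℝ, E) 𝓘(ℝ, E).tangent ∞
      (fun x => (⟨x, Z x⟩ : TangentBundle 𝓘(ℝ, E) M)))
    (hker : ∀ (x : M) (u : E), D (E := E) (E' := W) f x u = 0 ↔ ∃ p q : ℝ, u = p • R x + q • Z x)
    (hind : ∀ (x : M) (p q : ℝ), p • R x + q • Z x = 0 → p = 0 ∧ q = 0) :
    -- there are infinitely many periodic orbits of the same period `T` in one level set of `f`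
    ∃ (c : ℕ → ℝ → M) (T : ℝ) (w : W), (∀ n, IsPeriodicOrbit R (c n) T) ∧
      (∀ n t, f (c n t) = w) ∧
      ∀ m n, m ≠ n → Disjoint (Set.range (c m)) (Set.range (c n)) :=
  Pool.Agent.N287.WF.exists_periodic α hα R hR f hf Z hZ hker hind

end Pool.Agent.Results.MP_e3ee0c_gt.SurfaceFibrations
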